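import Mathlib
import Pool.Agent.V7H88.BS.B
import Pool.Agent.V7H88.NF.E
import Pool.Agent.V7H83.CZ.H

/-!
`P(d/ds) L` far to the right, and the step from a line near the critical line to the critical line.
-/

set_option autoImplicit false
set_option maxHeartbeats 1000000

open Complex Filter Topology Metric Set
open H370 H370.Loc

namespace Pool.Agent.V7H88.NV

open Pool.Agent.V7H83.CZ Pool.Agent.V7H89.GL Pool.Agent.W169.HF H353.E H353.F
open Pool.Agent.V7H88.BS Pool.Agent.V7H88.NF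

variable {m : ℕ} {θ : ℝ}

lemma ball_coord {c z : ℂ} {r : ℝ} (hz : z ∈ closedBall c r) :
    |z.re - c.re| ≤ r ∧ |z.im - c.im| ≤ r := by
  rw [mem_closedBall, dist_eq_norm] at hz
  have h1 := Complex.abs_re_le_norm (z - c)
  have h2 := Complex.abs_im_le_norm (z - c)
  rw [Complex.sub_re] at h1
  rw [Complex.sub_im] at h2
  exact ⟨h1.trans hz, h2.trans hz⟩

/-- far to the right the L-functions are close to one -/
theorem near_one (hθ : θ < 1 / 2) {ε : ℝ} (hε : 0 < ε) : ∃ b : ℝ, 4 ≤ b ∧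
    ∀ (L : ℂ → ℂ) (Q : ℝ → ℝ), Mem θ m L Q → ∀ s : ℂ, b ≤ s.re → ‖L s - 1‖ ≤ ε := by
  obtain ⟨B, hB, HB⟩ := euler_close m
  have hl2 : 0 < Real.log 2 := Real.log_pos (by norm_num)
  refine ⟨max 4 (Real.log (B / ε) / Real.log 2), le_max_left _ _, ?_⟩
  rintro L Q ⟨N, μ, α, ε', Λ, hD, rfl, rfl⟩ s hs
  have hs4 : 4 ≤ s.re := (le_max_left _ _).trans hs
  have hsl : Real.log (B / ε) ≤ s.re * Real.log 2 := by
    have := (le_max_right _ _).trans hs
    rwa [div_le_iff₀ hl2] at this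
  have hN := hD.d.one_le
  have hN0 : (N : ℂ) ≠ 0 := by
    have : N ≠ 0 := by linarith
    exact_mod_cast this
  have hpow : (N : ℂ) ^ (s / 2) ≠ 0 := by
    rw [Ne, Complex.cpow_eq_zero_iff]
    exact fun h => hN0 h.1
  have hg : ∏ j, Gammaℝ (s - μ j) ≠ 0 := by
    refine Finset.prod_ne_zero_iff.2 fun j _ => Gammaℝ_ne_zero_of_re_pos ?_
    have := hD.arch j
    rw [Complex.sub_re]
    linarith
  have e : LL N μ Λ s = euler α s := by
    unfold LL XX gaf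
    rw [hD.d.euler s (by linarith)]
    unfold euler
    field_simp
  rw [e]
  have hα : ∀ j, ∀ p : ℕ, p.Prime → ‖α j p‖ ≤ Real.sqrt p := by
    intro j p hp
    refine (hD.d.norm_le j p hp).trans ?_
    rw [Real.sqrt_eq_rpow]
    exact Real.rpow_le_rpow_of_exponent_le (by exact_mod_cast hp.one_lt.le) hθ.le
  refine (HB α hα s hs4).trans ?_
  have h1 : (1 / 2 : ℝ) ^ s.re = Real.exp (-(s.re * Real.log 2)) := by
    rw [Real.rpow_def_of_pos (by norm_num), one_div, Real.log_inv]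
    congr 1
    ring
  rw [h1]
  have h2 : Real.exp (-(s.re * Real.log 2)) ≤ Real.exp (-(Real.log (B / ε))) := Real.exp_le_exp.2 (by linarith)
  rw [Real.exp_neg (Real.log (B / ε)), Real.exp_log (by positivity)] at h2
  calc B * Real.exp (-(s.re * Real.log 2)) ≤ B * (B / ε)⁻¹ := by gcongr
    _ = ε := by field_simp

lemma iter_sub_const (f : ℂ → ℂ) (c : ℂ) (j : ℕ) (s : ℂ) :
    iteratedDeriv (j + 1) (fun z => f z - c) s = iteratedDeriv (j + 1) f s := by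
  rw [iteratedDeriv_succ', iteratedDeriv_succ']
  congr 1
  funext z
  exact deriv_sub_const c

lemma PD_sub_one (P : Polynomial ℂ) (f : ℂ → ℂ) (s : ℂ) :
    PD P f s = P.coeff 0 + PD P (fun z => f z - 1) s := by
  unfold PD
  rw [Finset.sum_range_succ', Finset.sum_range_succ']
  simp only [iter_sub_const, iteratedDeriv_zero]
  ring

/-- `P(d/ds) L` is close to `P(0)` far to the right -/
theorem far_PD (P : Polynomial ℂ) (hθ : θ < 1 / 2) {ε : ℝ} (hε : 0 < ε) : ∃ b : ℝ, 4 ≤ b ∧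
    ∀ (L : ℂ → ℂ) (Q : ℝ → ℝ), Mem θ m L Q → Differentiable ℂ L → ∀ s : ℂ, b ≤ s.re →
      ‖PD P L s - P.coeff 0‖ ≤ ε := by
  have hC := CP_nonneg P (ρ := 1) one_pos
  obtain ⟨b, hb, HB⟩ := near_one (m := m) hθ (ε := ε / (CP P 1 + 1)) (by positivity)
  refine ⟨b + 1, by linarith, fun L Q hM hd s hs => ?_⟩
  rw [PD_sub_one, add_sub_cancel_left]
  refine (PD_bound P (ρ := 1) (M := ε / (CP P 1 + 1)) one_pos (fun z _ => (hd z).sub_const 1) (fun z hz => ?_)).trans ?_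
  · refine HB L Q hM z ?_
    have := (abs_le.1 (ball_coord hz).1).1
    linarith
  · rw [← mul_div_assoc, div_le_iff₀ (by positivity)]
    nlinarith

/-- **from a line near the critical line to the critical line** -/
theorem pushM (hm : 1 ≤ m) (hθ0 : 0 ≤ θ) (hθ : θ < 1 / 2) {κ h2 : ℝ} (hκ : 0 < κ) (hh20 : 0 < h2)
    (hh21 : h2 ≤ 1 / 2) : ∃ ρ0 Q0 : ℝ, 0 < ρ0 ∧ ρ0 ≤ 1 / 2 ∧ 1 < Q0 ∧ ∀ ρ : ℝ, 0 < ρ → ρ ≤ ρ0 →
      ∀ (L : ℂ → ℂ) (Q : ℝ → ℝ), Mem θ m L Q → ∀ T : ℝ, Q0 ≤ Q T →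
      (∀ y : ℝ, |y| ≤ h2 → ‖L ⟨1 / 2 + ρ, T + y⟩‖ ≤ Real.exp (κ / 16 * Real.log (Q T))) →
      ‖L (1 / 2 + T * I)‖ < Q T ^ κ := by
  have hm' : (1 : ℝ) ≤ m := by exact_mod_cast hm
  obtain ⟨K, hK, HB⟩ := base hm hθ0 hθ
  obtain ⟨ρ0, hρ0, hρ01, HP⟩ := pushUD (K := K) (ϑ0 := 1 + θ) (κ := κ) (h2 := h2) hK (by linarith) (by linarith)
    hκ hh20 hh21
  obtain ⟨X, hX⟩ : ∃ X : ℝ, X = max (30 * (m : ℝ)) (max (36 * K + 15 * m) ((100 * m * (κ + 1) + 100 * K) / κ)) :=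
    ⟨_, rfl⟩
  refine ⟨min ρ0 (κ / 16), Real.exp X, by positivity, (min_le_left _ _).trans hρ01, ?_, ?_⟩
  · apply Real.one_lt_exp_iff.2
    have : 30 * (m : ℝ) ≤ X := by rw [hX]; exact le_max_left _ _
    linarith
  intro ρ hρ hρle L Q hMem T hQ hval
  have hρa : ρ ≤ ρ0 := hρle.trans (min_le_left _ _)
  have hρb : ρ ≤ κ / 16 := hρle.trans (min_le_right _ _)
  obtain ⟨N, μ, α, ε, Λ, D, rfl, rfl⟩ := hMem
  obtain ⟨hCl, -, HU⟩ := HB N μ α ε Λ D
  have hN := D.d.one_le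
  obtain ⟨hud, hgam, hl1, hl2, hc1, -⟩ := HU T
  obtain ⟨L, hL⟩ : ∃ L : ℝ, L = Real.log (cq N μ T) := ⟨_, rfl⟩
  obtain ⟨ℓ, hℓ⟩ : ∃ ℓ : ℝ, ℓ = el N μ T := ⟨_, rfl⟩
  rw [← hL] at hl1 hl2 hval
  rw [← hℓ] at hl1 hl2 hud hgam
  have hLge : X ≤ L := by
    have := Real.log_le_log (Real.exp_pos _) hQ
    rwa [Real.log_exp, ← hL] at this
  rw [hX] at hLge
  have hLa : 30 * (m : ℝ) ≤ L := (le_max_left _ _).trans hLge
  have hLc : 36 * K + 15 * m ≤ L := ((le_max_left _ _).trans (le_max_right _ _)).trans hLge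
  have hLd : (100 * m * (κ + 1) + 100 * K) / κ ≤ L := ((le_max_right _ _).trans (le_max_right _ _)).trans hLge
  have hL0' : 0 < L := by linarith
  have hκL : 100 * m * (κ + 1) + 100 * K ≤ κ * L := by
    rw [div_le_iff₀ hκ] at hLd
    linarith
  have hG := hud.hG
  by_contra hbig
  push Not at hbig
  have hℓL : L / 4 ≤ ℓ := by linarith
  have hℓ0 : 0 < ℓ := by linarith
  have hκℓ : κ * (L - 15 * m) ≤ κ * (2 * ℓ) := mul_le_mul_of_nonneg_left (by linarith) hκ.le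
  have hκℓ2 : κ * (2 * ℓ) ≤ κ * (L + 15 * m) := mul_le_mul_of_nonneg_left hl2 hκ.le
  have hpush := HP ρ hρ hρa ℓ (GG θ N μ T) (ff N Λ T) (by linarith) hud (fun y hy => by
    obtain ⟨u, hu⟩ : ∃ u : ℂ, u = (ρ : ℂ) + y * I := ⟨_, rfl⟩
    have hure : u.re = ρ := by rw [hu]; simp
    have huim : u.im = y := by rw [hu]; simp
    have e0 : (⟨1 / 2 + ρ, T + y⟩ : ℂ) = 1 / 2 + T * I + u := by
      rw [hu]
      apply Complex.ext <;> simp
    have h3 := hval y hy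
    rw [e0] at h3
    rw [← hu]
    obtain ⟨h4, h5⟩ := hgam u (by rw [hure]; exact hρ.le)
    have hgpos : 0 < ‖gaf N μ (1 / 2 + T * I + u)‖ := lt_of_lt_of_le (by positivity) h4
    have h6 : ‖LL N μ Λ (1 / 2 + T * I + u)‖ * ‖gaf N μ (1 / 2 + T * I + u)‖ = ‖ff N Λ T u‖ := by
      unfold LL ff
      rw [norm_mul, norm_inv, mul_assoc, inv_mul_cancel₀ hgpos.ne', mul_one]
    have h7 : ‖u‖ ^ 2 ≤ 1 / 2 := by
      rw [Complex.sq_norm, Complex.normSq_apply, hure, huim]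
      have h8 := abs_le.1 (hy.trans hh21)
      have h9 : ρ ≤ 1 / 2 := hρa.trans hρ01
      nlinarith
    rw [← h6]
    calc ‖LL N μ Λ (1 / 2 + T * I + u)‖ * ‖gaf N μ (1 / 2 + T * I + u)‖ ≤
          Real.exp (κ / 16 * L) * (GG θ N μ T * Real.exp (ℓ * u.re + K * (1 + ‖u‖ ^ 2))) :=
          mul_le_mul h3 h5 (norm_nonneg _) (Real.exp_pos _).le
      _ = GG θ N μ T * Real.exp (κ / 16 * L + (ℓ * u.re + K * (1 + ‖u‖ ^ 2))) := by
          rw [mul_left_comm, ← Real.exp_add]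
      _ ≤ _ := by
          apply mul_le_mul_of_nonneg_left _ hG.le
          apply Real.exp_le_exp.2
          rw [hure]
          have h9 : ℓ * ρ ≤ ℓ * (κ / 16) := mul_le_mul_of_nonneg_left hρb hℓ0.le
          have h10 : K * (1 + ‖u‖ ^ 2) ≤ 2 * K := by nlinarith
          nlinarith)
  have hff0 : ff N Λ T 0 = XX N Λ (1 / 2 + T * I) := by unfold ff; rw [add_zero]
  have hg0 := (hgam 0 (by simp)).1
  simp only [Complex.zero_re, mul_zero, norm_zero, add_zero, zero_sub, ne_eq, OfNat.ofNat_ne_zero,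
    not_false_eq_true, zero_pow, mul_one] at hg0
  have hgpos : 0 < ‖gaf N μ (1 / 2 + T * I)‖ := lt_of_lt_of_le (by positivity) hg0
  have hLLn : ‖LL N μ Λ (1 / 2 + T * I)‖ * ‖gaf N μ (1 / 2 + T * I)‖ = ‖ff N Λ T 0‖ := by
    rw [hff0]
    unfold LL
    rw [norm_mul, norm_inv, mul_assoc, inv_mul_cancel₀ hgpos.ne', mul_one]
  have hexp : cq N μ T ^ κ = Real.exp (κ * L) := by
    rw [Real.rpow_def_of_pos (by linarith), hL, mul_comm]
  rw [hexp] at hbig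
  have h11 : GG θ N μ T * Real.exp (κ * L - K) ≤ GG θ N μ T * Real.exp (3 * κ / 8 * ℓ) := by
    refine le_trans ?_ hpush
    rw [← hLLn]
    calc GG θ N μ T * Real.exp (κ * L - K) = Real.exp (κ * L) * (GG θ N μ T * Real.exp (-K)) := by
          rw [sub_eq_add_neg, Real.exp_add]; ring
      _ ≤ _ := mul_le_mul hbig hg0 (by positivity) (norm_nonneg _)
  have h12 := Real.exp_le_exp.1 (le_of_mul_le_mul_left h11 hG)
  have hmκ : 0 < m * κ := by positivity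
  nlinarith

end Pool.Agent.V7H88.NV
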