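import Mathlib
import Pool.Agent.V7H88.NV.A

/-!
A large value on the critical line: `P(d/ds) L` agrees often with every small analytic function.
-/

set_option autoImplicit false
set_option maxHeartbeats 1000000

open Complex Filter Topology Metric Set
open H370 H370.Loc

namespace Pool.Agent.V7H88.NV

open Pool.Agent.V7H83.CZ Pool.Agent.V7H89.GL Pool.Agent.W169.HF H353.E H353.F
open Pool.Agent.V7H88.BS Pool.Agent.V7H88.NF

variable {m : ℕ} {θ : ℝ}

/-- **many solutions** -/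
theorem manyV (P : Polynomial ℂ) (hP : P ≠ 0) (hm : 1 ≤ m) (hθ0 : 0 ≤ θ) (hθ : θ < 1 / 2) {κ h δ₀ : ℝ} (σ₀ : ℝ)
    (hκ : 0 < κ) (hh : 0 < h) (hδ₀ : 0 < δ₀) : ∃ c Q0 : ℝ, 0 < c ∧ c ≤ 1 ∧ 1 < Q0 ∧
      ∀ (L : ℂ → ℂ) (Q : ℝ → ℝ), Mem θ m L Q → ∀ T : ℝ, Q0 ≤ Q T → Q T ^ κ ≤ ‖L (1 / 2 + T * I)‖ →
      ∀ A : ℂ → ℂ, (∀ s : ℂ, 1 / 2 + c ≤ s.re → s.re ≤ 1 / c → |s.im - T| ≤ h →
        AnalyticAt ℂ A s ∧ ‖A s‖ ≤ Q T ^ c ∧ (σ₀ ≤ s.re → δ₀ ≤ ‖A s - P.coeff 0‖)) →
      ∃ S : Finset ℂ, (∀ s ∈ S, PD P L s = A s ∧ 1 / 2 + c ≤ s.re ∧ s.re ≤ 1 / c ∧ |s.im - T| ≤ h) ∧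
        c * Real.log (Q T) ≤ ∑ s ∈ S, (mult (fun z => PD P L z - A z) s : ℝ) := by
  classical
  obtain ⟨h2, hh2⟩ : ∃ h2 : ℝ, h2 = min (h / 2) (1 / 2) := ⟨_, rfl⟩
  have hh20 : 0 < h2 := by rw [hh2]; positivity
  have hh2h : h2 ≤ h / 2 := by rw [hh2]; exact min_le_left _ _
  have hh21 : h2 ≤ 1 / 2 := by rw [hh2]; exact min_le_right _ _
  obtain ⟨ρ0, Q1, hρ0, hρ01, hQ1, HP⟩ := pushM hm hθ0 hθ hκ hh20 hh21
  obtain ⟨ρ, hρd⟩ : ∃ ρ : ℝ, ρ = min ρ0 (1 / 4) := ⟨_, rfl⟩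
  have hρ : 0 < ρ := by rw [hρd]; positivity
  have hρa : ρ ≤ ρ0 := by rw [hρd]; exact min_le_left _ _
  have hρb : ρ ≤ 1 / 4 := by rw [hρd]; exact min_le_right _ _
  obtain ⟨ε1, hε1⟩ : ∃ ε1 : ℝ, ε1 = κ / 32 := ⟨_, rfl⟩
  have hε10 : 0 < ε1 := by rw [hε1]; positivity
  obtain ⟨b0, hb0, HF⟩ := far_PD (m := m) P hθ (ε := δ₀ / 2) (by positivity)
  obtain ⟨b, hb⟩ : ∃ b : ℝ, b = max b0 σ₀ + 1 := ⟨_, rfl⟩
  have hb1 : b0 + 1 ≤ b := by rw [hb]; linarith [le_max_left b0 σ₀]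
  have hb2 : σ₀ + 1 ≤ b := by rw [hb]; linarith [le_max_right b0 σ₀]
  obtain ⟨η, L₀, hη, hL₀, HT⟩ := thin (b := b) (h := h2) (ρ := ρ) (B := 3) (ε := ε1) (by linarith)
    hh20 hρ (by norm_num) hε10
  obtain ⟨C1, hC1, HI⟩ := invert P hP (ℓ := 3) (by norm_num)
  obtain ⟨A0, hA0, HA⟩ := factsM hm hθ0 hθ
  obtain ⟨Cg, hCg, HG⟩ := growM hm hθ0 hθ (V := 2) (by norm_num)
  obtain ⟨κe, hκe⟩ : ∃ κe : ℝ, κe = min ε1 (1 / 4) := ⟨_, rfl⟩
  have hκe0 : 0 < κe := by rw [hκe]; positivity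
  have hκe1 : κe ≤ ε1 := by rw [hκe]; exact min_le_left _ _
  have hκe2 : κe ≤ 1 / 4 := by rw [hκe]; exact min_le_right _ _
  obtain ⟨Q2, hQ2, HE⟩ := edgeM hm hθ0 hθ (κ := κe) (V := 2) hκe0 (by norm_num)
  obtain ⟨D1, hD1⟩ : ∃ D1 : ℝ, D1 = CP P (ρ / 4) := ⟨_, rfl⟩
  have hD10 : 0 ≤ D1 := by rw [hD1]; exact CP_nonneg P (by positivity)
  obtain ⟨D2, hD2⟩ : ∃ D2 : ℝ, D2 = CP P (1 / 4) := ⟨_, rfl⟩
  have hD20 : 0 ≤ D2 := by rw [hD2]; exact CP_nonneg P (by norm_num)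
  obtain ⟨Y, hY⟩ : ∃ Y : ℝ, Y = ∑ j ∈ Finset.range (P.natDegree + 1), (j.factorial : ℝ) / (1 / 2) ^ j * A0 := ⟨_, rfl⟩
  have hY0 : 0 ≤ Y := by rw [hY]; exact Finset.sum_nonneg fun _ _ => by positivity
  obtain ⟨E, hE⟩ : ∃ E : ℝ, E = C1 * (Y + 2 + D2) + 1 := ⟨_, rfl⟩
  have hE1 : 1 ≤ E := by
    have : 0 ≤ C1 * (Y + 2 + D2) := by positivity
    rw [hE]; linarith
  have hlE : 0 ≤ Real.log E := Real.log_nonneg hE1
  obtain ⟨W, hW⟩ : ∃ W : ℝ, W = ‖P.coeff 0‖ + δ₀ / 2 + 1 := ⟨_, rfl⟩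
  have hW1 : 1 ≤ W := by rw [hW]; have := norm_nonneg (P.coeff 0); linarith
  obtain ⟨c, hc⟩ : ∃ c : ℝ, c = min (min (η / 2) ε1) (min (ρ / 2) (1 / (b + 2))) := ⟨_, rfl⟩
  have hbp : 0 < b + 2 := by linarith
  have hc0 : 0 < c := by rw [hc]; positivity
  have hcη : c ≤ η / 2 := by rw [hc]; exact (min_le_left _ _).trans (min_le_left _ _)
  have hcε : c ≤ ε1 := by rw [hc]; exact (min_le_left _ _).trans (min_le_right _ _)
  have hcρ : c ≤ ρ / 2 := by rw [hc]; exact (min_le_right _ _).trans (min_le_left _ _)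
  have hcb : b + 2 ≤ 1 / c := by
    have : c ≤ 1 / (b + 2) := by rw [hc]; exact (min_le_right _ _).trans (min_le_right _ _)
    rw [le_div_iff₀ hc0]
    rw [le_div_iff₀ (by linarith)] at this
    linarith
  have hc1 : c ≤ 1 := by linarith
  obtain ⟨X, hX⟩ : ∃ X : ℝ, X = max (max L₀ (Real.log (D1 + 1) + Cg + 1))
    (max (max (2 * Real.log W / η) (|Real.log (δ₀ / 2)| / η)) (Real.log E / ε1)) := ⟨_, rfl⟩
  refine ⟨c, max (max Q1 Q2) (Real.exp X), hc0, hc1, ?_, ?_⟩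
  · exact lt_of_lt_of_le hQ1 ((le_max_left _ _).trans (le_max_left _ _))
  intro L Q hMem T hQ hbig A hAt
  obtain ⟨hd, hQge, hgr, hfar, -⟩ := HA L Q hMem
  have hQ1T : Q1 ≤ Q T := ((le_max_left _ _).trans (le_max_left _ _)).trans hQ
  have hQ2T : Q2 ≤ Q T := ((le_max_right _ _).trans (le_max_left _ _)).trans hQ
  have hQpos : 0 < Q T := by linarith [hQge T]
  obtain ⟨Λ, hΛ⟩ : ∃ Λ : ℝ, Λ = Real.log (Q T) := ⟨_, rfl⟩
  have hXΛ : X ≤ Λ := by
    have := Real.log_le_log (Real.exp_pos _) ((le_max_right _ _).trans hQ)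
    rwa [Real.log_exp, ← hΛ] at this
  rw [hX] at hXΛ
  have hΛa : L₀ ≤ Λ := ((le_max_left _ _).trans (le_max_left _ _)).trans hXΛ
  have hΛb : Real.log (D1 + 1) + Cg + 1 ≤ Λ := ((le_max_right _ _).trans (le_max_left _ _)).trans hXΛ
  have hΛc : 2 * Real.log W / η ≤ Λ :=
    ((le_max_left _ _).trans ((le_max_left _ _).trans (le_max_right _ _))).trans hXΛ
  have hΛd : |Real.log (δ₀ / 2)| / η ≤ Λ :=
    ((le_max_right _ _).trans ((le_max_left _ _).trans (le_max_right _ _))).trans hXΛ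
  have hΛe : Real.log E / ε1 ≤ Λ := ((le_max_right _ _).trans (le_max_right _ _)).trans hXΛ
  rw [div_le_iff₀ hη] at hΛc hΛd
  rw [div_le_iff₀ hε10] at hΛe
  have hlD1 : 0 ≤ Real.log (D1 + 1) := Real.log_nonneg (by linarith)
  have hΛ1 : 1 ≤ Λ := by linarith
  have hΛ0 : 0 ≤ Λ := by linarith
  have hcΛ1 : c * Λ ≤ Λ := by
    have := mul_le_mul_of_nonneg_right hc1 hΛ0
    linarith
  have hcΛη : c * Λ ≤ η / 2 * Λ := mul_le_mul_of_nonneg_right hcη hΛ0
  have hcΛε : c * Λ ≤ ε1 * Λ := mul_le_mul_of_nonneg_right hcε hΛ0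
  have hκΛε : κe * Λ ≤ ε1 * Λ := mul_le_mul_of_nonneg_right hκe1 hΛ0
  have hηΛ0 : 0 ≤ η * Λ := by positivity
  have hpw : ∀ x : ℝ, Q T ^ x = Real.exp (x * Λ) := fun x => by
    rw [Real.rpow_def_of_pos hQpos, hΛ, mul_comm]
  by_contra hcon
  push Not at hcon
  -- the crude bound
  have hcr : ∀ s : ℂ, 1 / 2 + ρ / 2 ≤ s.re → |s.im - T| ≤ 1 → ‖PD P L s‖ ≤ D1 * Real.exp (Cg + Λ) := by
    intro s hs1 hs2
    rw [hD1]
    refine PD_bound P (by positivity) (fun z _ => hd z) fun z hz => ?_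
    obtain ⟨h3, h4⟩ := ball_coord hz
    have h3' := abs_le.1 h3
    have h4' := abs_le.1 h4
    have hs2' := abs_le.1 hs2
    rw [hΛ]
    exact HG L Q hMem T z (by linarith) (by rw [abs_le]; constructor <;> linarith)
  -- the values on the lines
  have hval : ∀ x y : ℝ, ρ ≤ x → x ≤ 1 → |y| ≤ h2 →
      ‖PD P L (1 / 2 + T * I + ((x : ℂ) + y * I))‖ ≤ 2 * Real.exp (ε1 * Λ) := by
    intro x y hx0 hx1 hy
    have hu : ∀ u : ℂ, |u.im - y| ≤ h2 → |u.im| ≤ h ∧ |u.im| ≤ 1 := fun u hu => by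
      have h3 : |u.im| ≤ 2 * h2 := by
        calc |u.im| = |(u.im - y) + y| := by ring_nf
          _ ≤ |u.im - y| + |y| := abs_add_le _ _
          _ ≤ 2 * h2 := by linarith
      constructor <;> linarith
    have ere : ∀ u : ℂ, (1 / 2 + T * I + u).re = 1 / 2 + u.re := fun u => by simp
    have eim : ∀ u : ℂ, (1 / 2 + T * I + u).im - T = u.im := fun u => by simp
    have hreg : ∀ u : ℂ, ρ / 2 ≤ u.re → u.re ≤ b + 1 → |u.im - y| ≤ h2 →
        AnalyticAt ℂ A (1 / 2 + T * I + u) ∧ ‖A (1 / 2 + T * I + u)‖ ≤ Q T ^ c ∧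
          (σ₀ ≤ (1 / 2 + T * I + u).re → δ₀ ≤ ‖A (1 / 2 + T * I + u) - P.coeff 0‖) := by
      intro u h3 h4 h5
      refine hAt _ ?_ ?_ ?_
      · rw [ere]; linarith
      · rw [ere]; linarith
      · rw [eim]; exact (hu u h5).1
    have h3 := HT (fun u => PD P L (1 / 2 + T * I + u) - A (1 / 2 + T * I + u)) x y Λ hΛa hx0 hx1 (by
      intro u hu1 hu2 hu3
      obtain ⟨h4, h5, -⟩ := hreg u hu1 hu2 hu3
      have ha : AnalyticAt ℂ (fun u : ℂ => 1 / 2 + (T : ℂ) * I + u) u := by fun_prop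
      refine ⟨?_, ?_⟩
      · exact (AnalyticAt.fun_comp (PD_analytic P (hd.analyticAt _)) ha).sub (AnalyticAt.fun_comp h4 ha)
      · have h6 := hcr (1 / 2 + T * I + u) (by rw [ere]; linarith) (by rw [eim]; exact (hu u hu3).2)
        calc ‖PD P L (1 / 2 + T * I + u) - A (1 / 2 + T * I + u)‖
            ≤ ‖PD P L (1 / 2 + T * I + u)‖ + ‖A (1 / 2 + T * I + u)‖ := norm_sub_le _ _
          _ ≤ D1 * Real.exp (Cg + Λ) + Real.exp (Cg + Λ) := by
              refine add_le_add h6 (h5.trans ?_)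
              rw [hpw]
              apply Real.exp_le_exp.2
              linarith
          _ = (D1 + 1) * Real.exp (Cg + Λ) := by ring
          _ = Real.exp (Real.log (D1 + 1) + (Cg + Λ)) := by
              rw [Real.exp_add (Real.log (D1 + 1)), Real.exp_log (by linarith)]
          _ ≤ Real.exp (3 * Λ) := Real.exp_le_exp.2 (by linarith)) (by
      intro u hu1 hu2 hu3
      obtain ⟨-, h5, h6⟩ := hreg u (by linarith) hu2 hu3
      have h6' := h6 (by rw [ere]; linarith)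
      have h7 := HF L Q hMem hd (1 / 2 + T * I + u) (by rw [ere]; linarith)
      constructor
      · have h8 : δ₀ / 2 ≤ ‖PD P L (1 / 2 + T * I + u) - A (1 / 2 + T * I + u)‖ := by
          have h9 : A (1 / 2 + T * I + u) - P.coeff 0 = (PD P L (1 / 2 + T * I + u) - P.coeff 0) -
              (PD P L (1 / 2 + T * I + u) - A (1 / 2 + T * I + u)) := by ring
          rw [h9] at h6'
          have h10 := norm_sub_le (PD P L (1 / 2 + T * I + u) - P.coeff 0)
            (PD P L (1 / 2 + T * I + u) - A (1 / 2 + T * I + u))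
          linarith
        refine le_trans ?_ h8
        have h11 := neg_abs_le (Real.log (δ₀ / 2))
        have h12 : -(η * Λ) ≤ Real.log (δ₀ / 2) := by linarith
        exact (Real.le_log_iff_exp_le (by positivity)).1 h12
      · calc ‖PD P L (1 / 2 + T * I + u) - A (1 / 2 + T * I + u)‖
            ≤ ‖PD P L (1 / 2 + T * I + u)‖ + ‖A (1 / 2 + T * I + u)‖ := norm_sub_le _ _
          _ ≤ (‖P.coeff 0‖ + δ₀ / 2) + Real.exp (η / 2 * Λ) := by
              refine add_le_add ?_ (h5.trans ?_)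
              · calc ‖PD P L (1 / 2 + T * I + u)‖ = ‖P.coeff 0 + (PD P L (1 / 2 + T * I + u) - P.coeff 0)‖ := by
                      congr 1; ring
                  _ ≤ _ := (norm_add_le _ _).trans (by linarith)
              · rw [hpw]
                exact Real.exp_le_exp.2 hcΛη
          _ ≤ W * Real.exp (η / 2 * Λ) := by
              have h8 : 1 ≤ Real.exp (η / 2 * Λ) := Real.one_le_exp (by positivity)
              have h9 := norm_nonneg (P.coeff 0)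
              have h10 : (W - 1) * 1 ≤ (W - 1) * Real.exp (η / 2 * Λ) :=
                mul_le_mul_of_nonneg_left h8 (by linarith)
              linarith
          _ = Real.exp (Real.log W + η / 2 * Λ) := by rw [Real.exp_add, Real.exp_log (by linarith)]
          _ ≤ Real.exp (η * Λ) := Real.exp_le_exp.2 (by linarith)) (by
      intro S hS
      have h4 := hcon (S.image (fun u => 1 / 2 + T * I + u)) (by
        intro s hs
        obtain ⟨u, hu', rfl⟩ := Finset.mem_image.1 hs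
        obtain ⟨h5, h6, h7, h8⟩ := hS u hu'
        refine ⟨sub_eq_zero.1 h5, ?_, ?_, ?_⟩
        · rw [ere]; linarith
        · rw [ere]; linarith
        · rw [eim]; exact (hu u h8).1)
      rw [Finset.sum_image (fun u _ v _ huv => add_left_cancel huv)] at h4
      have h5 : ∑ u ∈ S, (mult (fun z => PD P L z - A z) (1 / 2 + T * I + u) : ℝ) =
          ∑ u ∈ S, (mult (fun u => PD P L (1 / 2 + T * I + u) - A (1 / 2 + T * I + u)) u : ℝ) := by
        refine Finset.sum_congr rfl fun u _ => ?_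
        congr 1
        exact (ord_shift (fun z => PD P L z - A z) (1 / 2 + T * I) u).symm
      rw [h5, ← hΛ] at h4
      linarith)
    obtain ⟨-, h5, -⟩ := hreg ((x : ℂ) + y * I) (by simp; linarith) (by simp; linarith) (by simp [hh20.le])
    obtain ⟨s, hs⟩ : ∃ s : ℂ, s = 1 / 2 + T * I + ((x : ℂ) + y * I) := ⟨_, rfl⟩
    rw [← hs] at h3 h5 ⊢
    calc ‖PD P L s‖ = ‖(PD P L s - A s) + A s‖ := by rw [sub_add_cancel]
      _ ≤ ‖PD P L s - A s‖ + ‖A s‖ := norm_add_le _ _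
      _ ≤ Real.exp (ε1 * Λ) + Real.exp (ε1 * Λ) := by
          refine add_le_add h3 (h5.trans ?_)
          rw [hpw]
          exact Real.exp_le_exp.2 hcΛε
      _ = 2 * Real.exp (ε1 * Λ) := by ring
  have hexp1 : 1 ≤ Real.exp (ε1 * Λ) := Real.one_le_exp (by positivity)
  -- the bound on the segments
  have hseg : ∀ s : ℂ, 1 / 2 + ρ ≤ s.re → s.re ≤ 5 / 2 → |s.im - T| ≤ h2 →
      ‖PD P L s‖ ≤ (2 + D2) * Real.exp (ε1 * Λ) := by
    intro s hs1 hs2 hs3
    rcases le_or_gt s.re (3 / 2) with h3 | h3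
    · have h4 := hval (s.re - 1 / 2) (s.im - T) (by linarith) (by linarith) hs3
      have e : (1 / 2 + T * I + (((s.re - 1 / 2 : ℝ) : ℂ) + ((s.im - T : ℝ) : ℂ) * I)) = s := by
        apply Complex.ext
        · simp
        · simp
      rw [e] at h4
      have h5 : 0 ≤ D2 * Real.exp (ε1 * Λ) := by positivity
      linarith
    · have h4 : ‖PD P L s‖ ≤ D2 * Real.exp (ε1 * Λ) := by
        rw [hD2]
        refine PD_bound P (by norm_num) (fun z _ => hd z) fun z hz => ?_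
        obtain ⟨h5, h6⟩ := ball_coord hz
        have h5' := abs_le.1 h5
        have h6' := abs_le.1 h6
        have hs3' := abs_le.1 hs3
        have h7 := HE L Q hMem T hQ2T z (by linarith) (by rw [abs_le]; constructor <;> linarith)
        rw [hpw] at h7
        exact h7.trans (Real.exp_le_exp.2 hκΛε)
      have h5 : 0 ≤ Real.exp (ε1 * Λ) := (Real.exp_pos _).le
      linarith
  have hfin := HP ρ hρ hρa L Q hMem T hQ1T (fun y hy => by
    have hsg : ∀ x : ℝ, (⟨5 / 2, T + y⟩ : ℂ) + x * ((⟨1 / 2 + ρ, T + y⟩ : ℂ) - ⟨5 / 2, T + y⟩) =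
        ⟨5 / 2 + x * (ρ - 2), T + y⟩ := by
      intro x
      apply Complex.ext
      · simp only [Complex.add_re, Complex.mul_re, Complex.sub_re, Complex.sub_im, Complex.ofReal_re,
          Complex.ofReal_im]
        ring
      · simp only [Complex.add_im, Complex.mul_im, Complex.sub_re, Complex.sub_im, Complex.ofReal_re,
          Complex.ofReal_im]
        ring
    have hnorm : ‖(⟨1 / 2 + ρ, T + y⟩ : ℂ) - ⟨5 / 2, T + y⟩‖ ≤ 3 := by
      refine (Complex.norm_le_abs_re_add_abs_im _).trans ?_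
      simp only [Complex.sub_re, Complex.sub_im, sub_self, abs_zero, add_zero]
      rw [abs_le]
      constructor <;> linarith
    have h4 := HI L ⟨5 / 2, T + y⟩ ⟨1 / 2 + ρ, T + y⟩ Y ((2 + D2) * Real.exp (ε1 * Λ)) hnorm hY0 (by positivity)
      (fun x _ => hd.analyticAt _) (fun j hj => by
        have h5 := iter_bound (f := L) (s := (⟨5 / 2, T + y⟩ : ℂ)) (ρ := 1 / 2) (M := A0) (by norm_num)
          (fun z _ => hd z) (fun z hz => (hfar z (by
            have := (abs_le.1 (ball_coord hz).1).1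
            have e : (⟨5 / 2, T + y⟩ : ℂ).re = 5 / 2 := rfl
            rw [e] at this
            linarith)).1) j
        refine h5.trans ?_
        rw [hY]
        exact Finset.single_le_sum (f := fun j : ℕ => (j.factorial : ℝ) / (1 / 2) ^ j * A0)
          (fun _ _ => by positivity) (Finset.mem_range.2 (by omega)))
      (fun x hx => by
        rw [hsg]
        refine hseg _ ?_ ?_ ?_
        · show 1 / 2 + ρ ≤ 5 / 2 + x * (ρ - 2)
          have h6 : x * (2 - ρ) ≤ 1 * (2 - ρ) := mul_le_mul_of_nonneg_right hx.2 (by linarith)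
          linarith
        · show 5 / 2 + x * (ρ - 2) ≤ 5 / 2
          have h6 : 0 ≤ x * (2 - ρ) := mul_nonneg hx.1 (by linarith)
          linarith
        · show |T + y - T| ≤ h2
          rwa [add_sub_cancel_left])
    refine h4.trans ?_
    rw [← hΛ]
    calc C1 * (Y + (2 + D2) * Real.exp (ε1 * Λ)) ≤ C1 * ((Y + 2 + D2) * Real.exp (ε1 * Λ)) := by
          apply mul_le_mul_of_nonneg_left _ hC1.le
          have h6 : Y * 1 ≤ Y * Real.exp (ε1 * Λ) := mul_le_mul_of_nonneg_left hexp1 hY0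
          linarith
      _ ≤ E * Real.exp (ε1 * Λ) := by
          rw [← mul_assoc]
          apply mul_le_mul_of_nonneg_right _ (Real.exp_pos _).le
          rw [hE]
          linarith
      _ = Real.exp (Real.log E + ε1 * Λ) := by rw [Real.exp_add, Real.exp_log (by linarith)]
      _ ≤ Real.exp (κ / 16 * Λ) := by
          apply Real.exp_le_exp.2
          have : κ / 16 * Λ = Λ * ε1 + ε1 * Λ := by rw [hε1]; ring
          linarith)
  linarith

end Pool.Agent.V7H88.NV
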