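import Mathlib
import Pool.Agent.V7H88.NV.A

/-!
Small values on the critical line: `P(d/ds) L` agrees rarely with small analytic functions.
-/

set_option autoImplicit false
set_option maxHeartbeats 1000000

open Complex Filter Topology Metric Set
open H370 H370.Loc

namespace Pool.Agent.V7H88.NV

open Pool.Agent.V7H83.CZ Pool.Agent.V7H89.GL Pool.Agent.W169.HF H353.E H353.F
open Pool.Agent.V7H88.BS Pool.Agent.V7H88.NF

variable {m : ℕ} {θ : ℝ}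

lemma norm_le_of_sq {w : ℂ} {ρ : ℝ} (hρ : 0 ≤ ρ) (h : w.re ^ 2 + w.im ^ 2 ≤ ρ ^ 2) : ‖w‖ ≤ ρ := by
  have h1 : ‖w‖ ^ 2 = w.re ^ 2 + w.im ^ 2 := by
    rw [Complex.sq_norm, Complex.normSq_apply]; ring
  rw [← h1] at h
  exact le_of_sq_le_sq h hρ

/-- **few solutions** -/
theorem fewV (P : Polynomial ℂ) (hm : 1 ≤ m) (hθ0 : 0 ≤ θ) (hθ : θ < 1 / 2) {δ ε δ₀ R₀ : ℝ} (σ₀ B : ℝ)
    (hδ : 0 < δ) (hε : 0 < ε) (hδ₀ : 0 < δ₀) (hR₀ : 0 ≤ R₀) : ∃ κ H Q0 : ℝ, 0 < κ ∧ κ ≤ 1 ∧ 0 < H ∧ 1 < Q0 ∧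
      ∀ (L : ℂ → ℂ) (Q : ℝ → ℝ), Mem θ m L Q → ∀ T : ℝ, Q0 ≤ Q T →
      (∀ t : ℝ, |t - T| ≤ H → ‖L ⟨1 / 2, t⟩‖ ≤ Real.exp (κ * Real.log (Q T))) →
      ∀ A : ℂ → ℂ, (∀ s : ℂ, 1 / 2 + δ / 2 ≤ s.re → s.re ≤ H → |s.im - T| ≤ H →
        AnalyticAt ℂ A s ∧ ‖A s‖ ≤ Real.exp (κ * Real.log (Q T)) ∧ (σ₀ ≤ s.re → δ₀ ≤ ‖A s - P.coeff 0‖)) →
      ∀ S : Finset ℂ, (∀ s ∈ S, PD P L s = A s ∧ 1 / 2 + δ ≤ s.re ∧ s.re ≤ B ∧ |s.im - T| ≤ R₀) →
        ∑ s ∈ S, (mult (fun z => PD P L z - A z) s : ℝ) ≤ ε * Real.log (Q T) := by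
  obtain ⟨b0, hb0, HF⟩ := far_PD (m := m) P hθ (ε := δ₀ / 2) (by positivity)
  obtain ⟨A0, hA0, HA⟩ := factsM hm hθ0 hθ
  obtain ⟨σ, hσ⟩ : ∃ σ : ℝ, σ = max (max b0 σ₀) (max B (2 * R₀ ^ 2 / δ + 1 + δ)) := ⟨_, rfl⟩
  have hσ1 : b0 ≤ σ := by rw [hσ]; exact (le_max_left _ _).trans (le_max_left _ _)
  have hσ2 : σ₀ ≤ σ := by rw [hσ]; exact (le_max_right _ _).trans (le_max_left _ _)
  have hσ3 : B ≤ σ := by rw [hσ]; exact (le_max_left _ _).trans (le_max_right _ _)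
  have hσ4 : 2 * R₀ ^ 2 / δ + 1 + δ ≤ σ := by rw [hσ]; exact (le_max_right _ _).trans (le_max_right _ _)
  have hσR : 2 * R₀ ^ 2 ≤ (σ - 1 - δ) * δ := by
    rw [← div_le_iff₀ hδ]
    linarith
  have hRδ : 0 ≤ 2 * R₀ ^ 2 / δ := by positivity
  obtain ⟨R, hR⟩ : ∃ R : ℝ, R = σ - 1 / 2 - δ / 2 := ⟨_, rfl⟩
  obtain ⟨r, hr⟩ : ∃ r : ℝ, r = σ - 1 / 2 - 3 * δ / 4 := ⟨_, rfl⟩
  have hr0 : 0 < r := by rw [hr]; linarith
  have hrR : r < R := by rw [hr, hR]; linarith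
  obtain ⟨q, hq⟩ : ∃ q : ℝ, q = Real.log (R / r) := ⟨_, rfl⟩
  have hq0 : 0 < q := by rw [hq]; exact Real.log_pos (by rw [lt_div_iff₀ hr0]; linarith)
  obtain ⟨κ, hκ⟩ : ∃ κ : ℝ, κ = min 1 (ε * q / 8) := ⟨_, rfl⟩
  have hκ0 : 0 < κ := by rw [hκ]; positivity
  have hκ1 : κ ≤ 1 := by rw [hκ]; exact min_le_left _ _
  have hκ2 : κ ≤ ε * q / 8 := by rw [hκ]; exact min_le_right _ _
  obtain ⟨H, Q1, hH, hQ1, Hs⟩ := right_smallM hm hθ0 hθ (κ := κ) (V := 2 * σ + 2) hκ0 (by linarith)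
  obtain ⟨D, hD⟩ : ∃ D : ℝ, D = CP P (δ / 2) := ⟨_, rfl⟩
  have hD0 : 0 ≤ D := by rw [hD]; exact CP_nonneg P (by positivity)
  obtain ⟨K, hK⟩ : ∃ K : ℝ, K = (D + 1) / (δ₀ / 2) + 1 := ⟨_, rfl⟩
  have hK1 : 1 ≤ K := by
    have : 0 ≤ (D + 1) / (δ₀ / 2) := by positivity
    rw [hK]; linarith
  have hlK : 0 ≤ Real.log K := Real.log_nonneg hK1
  refine ⟨κ, H, max Q1 (Real.exp (2 * Real.log K / (ε * q))), hκ0, hκ1, by linarith, lt_max_of_lt_left hQ1, ?_⟩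
  intro L Q hMem T hQ hsmall A hAt S hS
  obtain ⟨hd, hQge, hgr, hfar, -⟩ := HA L Q hMem
  obtain ⟨Λ, hΛ⟩ : ∃ Λ : ℝ, Λ = Real.log (Q T) := ⟨_, rfl⟩
  have hΛK : 2 * Real.log K ≤ Λ * (ε * q) := by
    have h1 := Real.log_le_log (Real.exp_pos _) ((le_max_right _ _).trans hQ)
    rw [Real.log_exp, ← hΛ] at h1
    rwa [div_le_iff₀ (by positivity)] at h1
  have hΛ0 : 0 ≤ Λ := by rw [hΛ]; exact Real.log_nonneg (hQge T)
  have hz := Hs L Q hMem T ((le_max_left _ _).trans hQ) (1 / 2) le_rfl (by norm_num) hsmall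
  rw [← hΛ] at hz hAt ⊢
  obtain ⟨c, hc⟩ : ∃ c : ℂ, c = ⟨σ, T⟩ := ⟨_, rfl⟩
  have ecr : c.re = σ := by rw [hc]
  have eci : c.im = T := by rw [hc]
  have hbig : ∀ z ∈ closedBall c R, 1 / 2 + δ / 2 ≤ z.re ∧ z.re ≤ 2 * σ ∧ |z.im - T| ≤ σ := by
    intro z hz
    obtain ⟨h1, h2⟩ := ball_coord hz
    rw [ecr] at h1
    rw [eci] at h2
    have h1' := abs_le.1 h1
    refine ⟨by linarith, by linarith, by linarith⟩
  have hup : ∀ z ∈ closedBall c R, ‖PD P L z‖ ≤ D * Real.exp (4 * κ * Λ) := by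
    intro z hz'
    obtain ⟨h1, h2, h3⟩ := hbig z hz'
    rw [hD]
    refine PD_bound P (by positivity) (fun w _ => hd w) fun w hw => ?_
    obtain ⟨h4, h5⟩ := ball_coord hw
    have h3' := abs_le.1 h3
    have h4' := abs_le.1 h4
    have h5' := abs_le.1 h5
    refine hz w (by linarith) ?_
    rw [abs_le]; constructor <;> linarith
  have hAz : ∀ z ∈ closedBall c R, AnalyticAt ℂ A z ∧ ‖A z‖ ≤ Real.exp (κ * Λ) ∧
      (σ₀ ≤ z.re → δ₀ ≤ ‖A z - P.coeff 0‖) := by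
    intro z hz'
    obtain ⟨h1, h2, h3⟩ := hbig z hz'
    exact hAt z h1 (by linarith) (by linarith)
  have hcc : c ∈ closedBall c R := mem_closedBall_self (by linarith)
  have hlow : δ₀ / 2 ≤ ‖PD P L c - A c‖ := by
    have h6' := (hAz c hcc).2.2 (by rw [ecr]; exact hσ2)
    have h7 := HF L Q hMem hd c (by rw [ecr]; exact hσ1)
    have h9 : A c - P.coeff 0 = (PD P L c - P.coeff 0) - (PD P L c - A c) := by ring
    rw [h9] at h6'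
    have h10 := norm_sub_le (PD P L c - P.coeff 0) (PD P L c - A c)
    linarith
  have hfc0 : 0 < ‖PD P L c - A c‖ := by linarith
  have hfc : PD P L c - A c ≠ 0 := norm_pos_iff.1 hfc0
  have hexp1 : 1 ≤ Real.exp (4 * κ * Λ) := Real.one_le_exp (by positivity)
  have hj := H370.Loc.jensen_mult (f := fun z => PD P L z - A z) (c := c) (r := r) (R := R)
    (M := (D + 1) * Real.exp (4 * κ * Λ)) hr0 hrR (by nlinarith)
    (fun z hz' => (PD_analytic P (hd.analyticAt z)).sub (hAz z hz').1) hfc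
    (by
      intro z hz'
      calc ‖PD P L z - A z‖ ≤ ‖PD P L z‖ + ‖A z‖ := norm_sub_le _ _
        _ ≤ D * Real.exp (4 * κ * Λ) + Real.exp (4 * κ * Λ) := by
            refine add_le_add (hup z hz') ((hAz z hz').2.1.trans (Real.exp_le_exp.2 ?_))
            nlinarith [mul_nonneg hκ0.le hΛ0]
        _ = (D + 1) * Real.exp (4 * κ * Λ) := by ring)
    S (by
      intro s hs
      obtain ⟨h4, h1, h2, h3⟩ := hS s hs
      rw [mem_closedBall, dist_eq_norm]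
      apply norm_le_of_sq hr0.le
      rw [Complex.sub_re, Complex.sub_im, ecr, eci]
      have h5 : (s.im - T) ^ 2 ≤ R₀ ^ 2 := by
        rw [← sq_abs]
        exact pow_le_pow_left₀ (abs_nonneg _) h3 2
      have h6 : (s.re - σ) ^ 2 ≤ (σ - 1 / 2 - δ) ^ 2 := by
        have h7 : 0 ≤ σ - s.re := by linarith
        have h8 : σ - s.re ≤ σ - 1 / 2 - δ := by linarith
        have h9 := pow_le_pow_left₀ h7 h8 2
        calc (s.re - σ) ^ 2 = (σ - s.re) ^ 2 := by ring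
          _ ≤ _ := h9
      rw [hr]
      nlinarith)
  refine hj.trans ?_
  rw [← hq, div_le_iff₀ hq0]
  have h1 : Real.log ((D + 1) * Real.exp (4 * κ * Λ) / ‖PD P L c - A c‖) ≤ Real.log (K * Real.exp (4 * κ * Λ)) := by
    apply Real.log_le_log (by positivity)
    rw [div_le_iff₀ hfc0]
    have h2 : D + 1 ≤ K * ‖PD P L c - A c‖ := by
      calc D + 1 = (D + 1) / (δ₀ / 2) * (δ₀ / 2) := by field_simp
        _ ≤ K * ‖PD P L c - A c‖ := by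
            apply mul_le_mul _ hlow (by positivity) (by linarith)
            rw [hK]; linarith
    calc (D + 1) * Real.exp (4 * κ * Λ) ≤ K * ‖PD P L c - A c‖ * Real.exp (4 * κ * Λ) := by gcongr
      _ = _ := by ring
  rw [Real.log_mul (by positivity) (by positivity), Real.log_exp] at h1
  have h4 : 4 * κ * Λ ≤ ε * q / 2 * Λ := by
    apply mul_le_mul_of_nonneg_right _ hΛ0
    linarith
  linarith

end Pool.Agent.V7H88.NV
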