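import Mathlib
import Pool.Agent.V7H88.NV.B
import Pool.Agent.V7H88.NV.C
import Pool.Agent.V7H88.NF.H

/-!
# Families with a size: values of `P(d/ds) L` near the centre
-/

set_option autoImplicit false
set_option maxHeartbeats 1000000

open Complex Filter Topology Metric Set
open H370 H370.Loc

namespace Pool.Agent.V7H88.NV

open Pool.Agent.V7H83.CZ Pool.Agent.V7H89.GL Pool.Agent.W169.HF H353.E H353.F
open Pool.Agent.V7H88.BS Pool.Agent.V7H88.NF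

variable {ι : Type*} {m : ℕ} {θ : ℝ} {L : ι → ℂ → ℂ} {Q : ι → ℝ → ℝ} {N : ι → ℝ} {C k : ℝ}

/-- **large values force many solutions** -/
theorem many_law (P : Polynomial ℂ) (hP : P ≠ 0) (F : Fam θ m L Q N C k) (hm : 1 ≤ m) (hθ0 : 0 ≤ θ)
    (hθ : θ < 1 / 2) {β h H₀ δ₀ : ℝ} (σ₀ : ℝ) (hβ : 0 < β) (hh : 0 < h) (hH₀ : 0 ≤ H₀) (hδ₀ : 0 < δ₀) :
    ∃ c X : ℝ, 0 < c ∧ c ≤ 1 ∧ 1 < X ∧ ∀ i, X ≤ N i → ∀ T : ℝ, |T| ≤ H₀ →
      N i ^ β ≤ ‖L i (1 / 2 + T * I)‖ →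
      ∀ A : ℂ → ℂ, (∀ s : ℂ, 1 / 2 + c ≤ s.re → s.re ≤ 1 / c → |s.im - T| ≤ h →
        AnalyticAt ℂ A s ∧ ‖A s‖ ≤ N i ^ c ∧ (σ₀ ≤ s.re → δ₀ ≤ ‖A s - P.coeff 0‖)) →
      ∃ S : Finset ℂ, (∀ s ∈ S, PD P (L i) s = A s ∧ 1 / 2 + c ≤ s.re ∧ s.re ≤ 1 / c ∧ |s.im - T| ≤ h) ∧
        c * Real.log (N i) ≤ ∑ s ∈ S, (mult (fun z => PD P (L i) z - A z) s : ℝ) := by
  have hk := F.hk
  obtain ⟨κ, hκ⟩ : ∃ κ : ℝ, κ = β / (k + 1) := ⟨_, rfl⟩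
  have hκ0 : 0 < κ := by rw [hκ]; positivity
  have hκe : κ * (k + 1) = β := by rw [hκ]; field_simp
  obtain ⟨c, Q1, hc, hc1, hQ1, H1⟩ := manyV P hP hm hθ0 hθ σ₀ hκ0 hh hδ₀
  obtain ⟨X, hX, HX⟩ := F.cmp hm hθ0 hθ hH₀ Q1
  have hinv : 1 / c ≤ 1 / (c / 2) := one_div_le_one_div_of_le (by positivity) (by linarith)
  refine ⟨c / 2, X, by positivity, by linarith, hX, fun i hi T hT hbig A hA => ?_⟩
  obtain ⟨h2, h3, h4, h5⟩ := HX i hi T hT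
  have hN1 : 1 ≤ N i := by linarith
  have h6 : Q i T ^ κ ≤ ‖L i (1 / 2 + T * I)‖ := by
    refine le_trans (pow_le (by linarith) (by linarith) ?_) hbig
    calc κ * Real.log (Q i T) ≤ κ * ((k + 1) * Real.log (N i)) := mul_le_mul_of_nonneg_left h5 hκ0.le
      _ = β * Real.log (N i) := by rw [← mul_assoc, hκe]
  have h8 : c * Real.log (N i) ≤ c * (2 * Real.log (Q i T)) := mul_le_mul_of_nonneg_left h4 hc.le
  have h7 : N i ^ (c / 2) ≤ Q i T ^ c := pow_le (by linarith) (by linarith) (by linarith)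
  obtain ⟨S, hS1, hS2⟩ := H1 _ _ (F.mem i) T h2 h6 A (fun s hs1 hs2 hs3 => by
    obtain ⟨h9, h10, h11⟩ := hA s (by linarith) (by linarith) hs3
    exact ⟨h9, h10.trans h7, h11⟩)
  refine ⟨S, fun s hs => ?_, by linarith⟩
  obtain ⟨h9, h10, h11, h12⟩ := hS1 s hs
  exact ⟨h9, by linarith, by linarith, h12⟩

/-- **small values leave few solutions** -/
theorem few_law (P : Polynomial ℂ) (F : Fam θ m L Q N C k) (hm : 1 ≤ m) (hθ0 : 0 ≤ θ)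
    (hθ : θ < 1 / 2) {δ ε δ₀ R₀ H₀ : ℝ} (σ₀ B : ℝ) (hδ : 0 < δ) (hε : 0 < ε) (hδ₀ : 0 < δ₀) (hR₀ : 0 ≤ R₀)
    (hH₀ : 0 ≤ H₀) :
    ∃ c H X : ℝ, 0 < c ∧ 0 < H ∧ 1 < X ∧ ∀ i, X ≤ N i → ∀ T : ℝ, |T| ≤ H₀ →
      (∀ t : ℝ, |t - T| ≤ H → ‖L i (1 / 2 + t * I)‖ ≤ N i ^ c) →
      ∀ A : ℂ → ℂ, (∀ s : ℂ, 1 / 2 + δ / 2 ≤ s.re → s.re ≤ H → |s.im - T| ≤ H →
        AnalyticAt ℂ A s ∧ ‖A s‖ ≤ N i ^ c ∧ (σ₀ ≤ s.re → δ₀ ≤ ‖A s - P.coeff 0‖)) →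
      ∀ S : Finset ℂ, (∀ s ∈ S, PD P (L i) s = A s ∧ 1 / 2 + δ ≤ s.re ∧ s.re ≤ B ∧ |s.im - T| ≤ R₀) →
        ∑ s ∈ S, (mult (fun z => PD P (L i) z - A z) s : ℝ) ≤ ε * Real.log (N i) := by
  have hk := F.hk
  obtain ⟨κ, H, Q1, hκ, -, hH, hQ1, H1⟩ := fewV P hm hθ0 hθ (ε := ε / (k + 1)) σ₀ B hδ (by positivity) hδ₀ hR₀
  obtain ⟨X, hX, HX⟩ := F.cmp hm hθ0 hθ hH₀ Q1
  refine ⟨κ / 2, H, X, by positivity, hH, hX, fun i hi T hT hsmall A hA S hS => ?_⟩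
  obtain ⟨h2, h3, h4, h5⟩ := HX i hi T hT
  have hN1 : 1 ≤ N i := by linarith
  have h8 : κ * Real.log (N i) ≤ κ * (2 * Real.log (Q i T)) := mul_le_mul_of_nonneg_left h4 hκ.le
  have h7 : N i ^ (κ / 2) ≤ Real.exp (κ * Real.log (Q i T)) := by
    rw [Real.rpow_def_of_pos (by linarith)]
    exact Real.exp_le_exp.2 (by linarith)
  refine (H1 _ _ (F.mem i) T h2 (fun t ht => ?_) A (fun s hs1 hs2 hs3 => ?_) S hS).trans ?_
  · rw [← half_eq]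
    exact (hsmall t ht).trans h7
  · obtain ⟨h9, h10, h11⟩ := hA s hs1 hs2 hs3
    exact ⟨h9, h10.trans h7, h11⟩
  · have h6 : ε / (k + 1) * Real.log (Q i T) ≤ ε / (k + 1) * ((k + 1) * Real.log (N i)) :=
      mul_le_mul_of_nonneg_left h5 (by positivity)
    have h7 : ε / (k + 1) * ((k + 1) * Real.log (N i)) = ε * Real.log (N i) := by field_simp
    linarith

/-- targets: small analytic functions with values away from `P(0)` far to the right -/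
def Targ (P : Polynomial ℂ) (N : ι → ℝ) (σ₀ δ₀ : ℝ) (A : ι → ℂ → ℂ) : Prop := ∀ c H : ℝ, 0 < c → 0 < H →
  ∃ X : ℝ, ∀ i, X ≤ N i → ∀ s : ℂ, 1 / 2 + c ≤ s.re → s.re ≤ 1 / c → |s.im| ≤ H →
    AnalyticAt ℂ (A i) s ∧ ‖A i s‖ ≤ N i ^ c ∧ (σ₀ ≤ s.re → δ₀ ≤ ‖A i s - P.coeff 0‖)

/-- few solutions on bounded ranges of heights -/
def FewS (P : Polynomial ℂ) (L : ι → ℂ → ℂ) (N : ι → ℝ) (A : ι → ℂ → ℂ) : Prop := ∀ η H : ℝ, 0 < η → 0 < H →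
  ∃ X : ℝ, ∀ i, X ≤ N i → ∀ T : ℝ, |T| ≤ H → ∀ S : Finset ℂ,
    (∀ s ∈ S, PD P (L i) s = A i s ∧ 1 / 2 + η ≤ s.re ∧ s.re ≤ 1 / η ∧ |s.im - T| ≤ 1) →
    ∑ s ∈ S, (mult (fun z => PD P (L i) z - A i z) s : ℝ) ≤ η * Real.log (N i)

theorem fewS_of_lin (P : Polynomial ℂ) (F : Fam θ m L Q N C k) (hm : 1 ≤ m) (hθ0 : 0 ≤ θ) (hθ : θ < 1 / 2)
    {σ₀ δ₀ : ℝ} (hδ₀ : 0 < δ₀) {A : ι → ℂ → ℂ} (hA : Targ P N σ₀ δ₀ A) (hL : LinB L N) : FewS P L N A := by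
  intro η H hη hH
  obtain ⟨c, H', X, hc, hH', hX, H1⟩ := few_law P F hm hθ0 hθ (δ := η) (ε := η) (R₀ := 1) (H₀ := H) σ₀ (1 / η)
    hη hη hδ₀ zero_le_one hH.le
  obtain ⟨X', HX'⟩ := hL c (H + H') hc (by positivity)
  obtain ⟨c', hc'⟩ : ∃ c' : ℝ, c' = min (min c (η / 2)) (1 / H') := ⟨_, rfl⟩
  have hc'0 : 0 < c' := by rw [hc']; positivity
  have hc'1 : c' ≤ c := by rw [hc']; exact (min_le_left _ _).trans (min_le_left _ _)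
  have hc'2 : c' ≤ η / 2 := by rw [hc']; exact (min_le_left _ _).trans (min_le_right _ _)
  have hc'3 : H' ≤ 1 / c' := by
    have h1 : c' ≤ 1 / H' := by rw [hc']; exact min_le_right _ _
    rw [le_div_iff₀ hH'] at h1
    rw [le_div_iff₀ hc'0]
    linarith
  obtain ⟨X'', HX''⟩ := hA c' (H + H') hc'0 (by positivity)
  refine ⟨max (max X X') X'', fun i hi T hT S hS => ?_⟩
  have hi1 : X ≤ N i := ((le_max_left _ _).trans (le_max_left _ _)).trans hi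
  have hi2 : X' ≤ N i := ((le_max_right _ _).trans (le_max_left _ _)).trans hi
  have hi3 : X'' ≤ N i := (le_max_right _ _).trans hi
  have htri : ∀ t : ℝ, |t - T| ≤ H' → |t| ≤ H + H' := fun t ht => by
    have := abs_add_le (t - T) T
    rw [sub_add_cancel] at this
    linarith
  refine H1 i hi1 T hT (fun t ht => HX' i hi2 t (htri t ht)) (A i) (fun s h1 h2 h3 => ?_) S hS
  obtain ⟨h4, h5, h6⟩ := HX'' i hi3 s (by linarith) (by linarith) (htri _ h3)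
  exact ⟨h4, h5.trans (Real.rpow_le_rpow_of_exponent_le (F.one i) hc'1), h6⟩

theorem lin_of_fewS (P : Polynomial ℂ) (hP : P ≠ 0) (F : Fam θ m L Q N C k) (hm : 1 ≤ m) (hθ0 : 0 ≤ θ)
    (hθ : θ < 1 / 2) {σ₀ δ₀ : ℝ} (hδ₀ : 0 < δ₀) {A : ι → ℂ → ℂ} (hA : Targ P N σ₀ δ₀ A) (hL : FewS P L N A) :
    LinB L N := by
  intro β H hβ hH
  obtain ⟨c, X, hc, hc1, hX, H1⟩ := many_law P hP F hm hθ0 hθ (h := 1) σ₀ hβ one_pos hH.le hδ₀
  obtain ⟨X', HX'⟩ := hL (c / 2) H (by positivity) hH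
  obtain ⟨X'', HX''⟩ := hA c (H + 1) hc (by positivity)
  refine ⟨max (max X X') X'', fun i hi T hT => ?_⟩
  have hi1 : X ≤ N i := ((le_max_left _ _).trans (le_max_left _ _)).trans hi
  have hi2 : X' ≤ N i := ((le_max_right _ _).trans (le_max_left _ _)).trans hi
  have hi3 : X'' ≤ N i := (le_max_right _ _).trans hi
  by_contra hcon
  push Not at hcon
  obtain ⟨S, hS1, hS2⟩ := H1 i hi1 T hT hcon.le (A i) (fun s h1 h2 h3 => HX'' i hi3 s h1 h2 (by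
    have := abs_add_le (s.im - T) T
    rw [sub_add_cancel] at this
    linarith))
  have hinv : 1 / c ≤ 1 / (c / 2) := one_div_le_one_div_of_le (by positivity) (by linarith)
  have h4 := HX' i hi2 T hT S (fun s hs => by
    obtain ⟨h5, h6, h7, h8⟩ := hS1 s hs
    exact ⟨h5, by linarith, by linarith, h8⟩)
  have h5 : 0 < Real.log (N i) := Real.log_pos (by linarith)
  have h6 : 0 < c * Real.log (N i) := by positivity
  linarith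

/-- the criterion for the central values -/
theorem central_val (P : Polynomial ℂ) (hP : P ≠ 0) (F : Fam θ m L Q N C k) (hm : 1 ≤ m) (hθ0 : 0 ≤ θ)
    (hθ : θ < 1 / 2) {σ₀ δ₀ h : ℝ} (hδ₀ : 0 < δ₀) (hh : 0 < h) {A : ι → ℂ → ℂ} (hA : Targ P N σ₀ δ₀ A)
    (hL : ∀ η : ℝ, 0 < η → ∃ X : ℝ, ∀ i, X ≤ N i → ∀ S : Finset ℂ,
      (∀ s ∈ S, PD P (L i) s = A i s ∧ 1 / 2 + η ≤ s.re ∧ s.re ≤ 1 / η ∧ |s.im| ≤ h) →
      ∑ s ∈ S, (mult (fun z => PD P (L i) z - A i z) s : ℝ) ≤ η * Real.log (N i)) {β : ℝ} (hβ : 0 < β) :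
    ∃ X : ℝ, ∀ i, X ≤ N i → ‖L i (1 / 2)‖ ≤ N i ^ β := by
  obtain ⟨c, X, hc, hc1, hX, H1⟩ := many_law P hP F hm hθ0 hθ σ₀ hβ hh le_rfl hδ₀
  obtain ⟨X', HX'⟩ := hL (c / 2) (by positivity)
  obtain ⟨X'', HX''⟩ := hA c h hc hh
  refine ⟨max (max X X') X'', fun i hi => ?_⟩
  have hi1 : X ≤ N i := ((le_max_left _ _).trans (le_max_left _ _)).trans hi
  have hi2 : X' ≤ N i := ((le_max_right _ _).trans (le_max_left _ _)).trans hi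
  have hi3 : X'' ≤ N i := (le_max_right _ _).trans hi
  by_contra hcon
  push Not at hcon
  obtain ⟨S, hS1, hS2⟩ := H1 i hi1 0 (by simp) (by simpa using hcon.le) (A i)
    (fun s h1 h2 h3 => HX'' i hi3 s h1 h2 (by rwa [sub_zero] at h3))
  have hinv : 1 / c ≤ 1 / (c / 2) := one_div_le_one_div_of_le (by positivity) (by linarith)
  have h4 := HX' i hi2 S (fun s hs => by
    obtain ⟨h5, h6, h7, h8⟩ := hS1 s hs
    rw [sub_zero] at h8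
    exact ⟨h5, by linarith, by linarith, h8⟩)
  have h5 : 0 < Real.log (N i) := Real.log_pos (by linarith)
  have h6 : 0 < c * Real.log (N i) := by positivity
  linarith

end Pool.Agent.V7H88.NV
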